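import Pool.Agent.X237.PQ.CritN

/-!
# Primitivity of the quasivariety generated by a finite Heyting algebra is decidable

For a finite Heyting algebra `A` with `n` elements the quasivariety `Q(A)` is primitive (equivalently
the deductive system `⊢_A` is hereditarily structurally complete) if and only if for all finite
algebras `B`, `C` in `Q(A)` with `B` a homomorphic image of `C` the homomorphisms from `B` to `C`
separate the points of `B`; it is enough to look at `B` with at most `n` elements and at `C` with at
most `n ^ (n ^ n)` elements. So there is an algorithm.

Idea of proof of the hard direction: a subquasivariety `K` of `Q(A)` that is not a relative variety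
gives an algebra `H` of `Q(A)` that satisfies the identities of `K` and violates a quasi-identity of
`K`. A finitely generated subalgebra of `H` is finite and is separated by homomorphisms to `A`, so
that it has an image `B` isomorphic to a subalgebra of `A` which violates the same quasi-identity. If
`C` is the free algebra of `K` on the elements of `B` then `B` is an image of `C`, so homomorphisms
from `B` to `C` separate points and `B` satisfies the quasi-identities of `K`, a contradiction.
-/

set_option autoImplicit false

namespace Pool.Agent.Results.MP_51e3d2_lc.PrimitivityDecidable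

open Pool.Agent.H877R3.HSC RA Pool.Agent.X237.PQ

/-- **Main result.**

(1) There is a primitive recursive function of the operation tables of a finite Heyting algebra `A`
that decides whether the quasivariety generated by `A` is primitive, and whether the deductive system
`⊢_A` is hereditarily structurally complete.

(2) For a Heyting algebra `A` with `n` elements, `Q(A)` is primitive iff for all finite algebras `B`
and `C` in `Q(A)` (that is: the homomorphisms to `A` separate points) such that `B` is a homomorphic
image of `C`, the homomorphisms from `B` to `C` separate the points of `B`;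

(3) and iff this holds for all such `B`, `C` with at most `n` and `n ^ (n ^ n)` elements. -/
theorem result :
    (∃ f : List ℕ → Bool, Primrec f ∧
      ∀ (A : Type) [HeytingAlgebra A] [Finite A] (n : ℕ) (e : A ≃ Fin n),
        (f (tables e) = true ↔ Primitive A) ∧
        (f (tables e) = true ↔ (matSystem A).HereditarilyStructurallyComplete)) ∧
    (∀ (A : Type) [HeytingAlgebra A] (n : ℕ), Nonempty (A ≃ Fin n) →
      (Primitive A ↔
        ∀ (m l : ℕ) (B : RA (Fin m)) (C : RA (Fin l)), Sep B (ofH A) → Sep C (ofH A) →
          (∃ g : Fin l → Fin m, Function.Surjective g ∧ IsHom C B g) → Sep B C) ∧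
      (Primitive A ↔
        ∀ (m l : ℕ), m ≤ n → l ≤ n ^ (n ^ n) →
          ∀ (B : RA (Fin m)) (C : RA (Fin l)), Sep B (ofH A) → Sep C (ofH A) →
            (∃ g : Fin l → Fin m, Function.Surjective g ∧ IsHom C B g) → Sep B C)) := by
  refine ⟨?_, ?_⟩
  · obtain ⟨inst, h⟩ := critF.primrec.comp (Primrec.id.pair (Primrec.const ([] : List ℕ)))
    refine ⟨_, h, fun A _ _ n e => ⟨?_, ?_⟩⟩
    · rw [primitive_iff_crit e, ← critM_iff e, ← critF_holds]
      simp
    · rw [Pool.Agent.X237.PQ.hsc_iff_crit e, ← critM_iff e, ← critF_holds]
      simp
  · rintro A _ n ⟨e⟩
    have h2 : Primitive A ↔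
        ∀ (m l : ℕ), m ≤ n → l ≤ n ^ (n ^ n) →
          ∀ (B : RA (Fin m)) (C : RA (Fin l)), Sep B (ofH A) → Sep C (ofH A) →
            (∃ g : Fin l → Fin m, Function.Surjective g ∧ IsHom C B g) → Sep B C := by
      rw [primitive_iff_crit e]
      exact ⟨fun h m l hm hl B C hB hC hg => h m hm l hl B C hB hC hg,
        fun h m hm l hl B C hB hC hg => h m l hm hl B C hB hC hg⟩
    refine ⟨⟨fun h m l B C hB hC hg => ?_, fun h => h2.2 fun m l _ _ => h m l⟩, h2⟩
    exact crit_of_primitive h m l m le_rfl l le_rfl B C hB hC hg

end Pool.Agent.Results.MP_51e3d2_lc.PrimitivityDecidable
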